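import Pool.Agent.H73.LPC.Stmts

/-!
# NWT: vanishing power sums
-/

set_option autoImplicit false

namespace Pool.LPC

theorem nwt14_eval (s : Multiset ℂ) (h : ∀ k : ℕ, 1 ≤ k → (s.map fun a => a ^ k).sum = 0)
    (P : Polynomial ℂ) (hP : P.coeff 0 = 0) : (s.map fun a => P.eval a).sum = 0 := by
  simp only [Polynomial.eval_eq_sum_range]
  have e : (s.map fun x => ∑ i ∈ Finset.range (P.natDegree + 1), P.coeff i * x ^ i).sum =
      ∑ i ∈ Finset.range (P.natDegree + 1), (s.map fun x => P.coeff i * x ^ i).sum :=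
    Multiset.sum_map_sum_map s (Finset.range (P.natDegree + 1)).val
  rw [e]
  refine Finset.sum_eq_zero fun k _ => ?_
  rw [Multiset.sum_map_mul_left]
  rcases Nat.eq_zero_or_pos k with hk | hk
  · rw [hk, hP, zero_mul]
  · rw [h k hk, mul_zero]

theorem NWT_thm : NWTStmt := by
  classical
  intro s h a ha
  by_contra h0
  let P : Polynomial ℂ := Polynomial.X *
    ∏ b ∈ (s.toFinset.erase 0).erase a, (Polynomial.X - Polynomial.C b)
  have hP : P.coeff 0 = 0 := by
    simp only [P, Polynomial.coeff_zero_eq_eval_zero, Polynomial.eval_mul, Polynomial.eval_X,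
      zero_mul]
  have h1 := nwt14_eval s h P hP
  rw [Finset.sum_multiset_map_count, Finset.sum_eq_single a] at h1
  · have h2 : s.count a ≠ 0 := Multiset.count_ne_zero.2 ha
    rw [nsmul_eq_mul, mul_eq_zero] at h1
    rcases h1 with h1 | h1
    · exact h2 (by exact_mod_cast h1)
    · simp only [P, Polynomial.eval_mul, Polynomial.eval_X, Polynomial.eval_prod,
        Polynomial.eval_sub, Polynomial.eval_C] at h1
      rcases mul_eq_zero.1 h1 with h3 | h3
      · exact h0 h3
      · obtain ⟨b, hb, hb2⟩ := Finset.prod_eq_zero_iff.1 h3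
        exact (Finset.ne_of_mem_erase hb) (sub_eq_zero.1 hb2).symm
  · intro b hb hba
    by_cases hb0 : b = 0
    · have : P.eval b = 0 := by
        simp only [P, Polynomial.eval_mul, Polynomial.eval_X, hb0, zero_mul]
      rw [this, smul_zero]
    · have : P.eval b = 0 := by
        simp only [P, Polynomial.eval_mul, Polynomial.eval_prod, Polynomial.eval_sub,
          Polynomial.eval_X, Polynomial.eval_C]
        refine mul_eq_zero.2 (Or.inr (Finset.prod_eq_zero (i := b) ?_ (sub_self b)))
        exact Finset.mem_erase.2 ⟨hba, Finset.mem_erase.2 ⟨hb0, hb⟩⟩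
      rw [this, smul_zero]
  · intro ha2
    exact absurd (Multiset.mem_toFinset.2 ha) ha2

end Pool.LPC
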